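import Pool.Agent.Y335.FL.Main
import Pool.Agent.Y335.FL.Local11

set_option autoImplicit false

/-! # Nowhere-zero 5-flows of `G` from those of `G / F`, `F` a union of short cycles -/

namespace Pool.Agent.Helper335.Rel

open Finset Pool.Agent.TH676.Z Pool.Agent.Y335.FL

variable {V E W : Type} [Fintype V] [DecidableEq V] [Fintype E] [DecidableEq E] [Fintype W]
  [DecidableEq W]

/-- A flow of the graph obtained by a map `r` that identifies only vertices joined by a path in
`F` gives a flow on `G` which is nonzero off `F`. -/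
theorem flow_off (src dst : E → V) (F : Finset E) (r : V → W)
    (hr : ∀ x y, r x = r y → (SimpleGraph.fromRel
      (fun u v : V => ∃ e ∈ F, src e = u ∧ dst e = v)).Reachable x y)
    (h : FlowOn (r ∘ src) (r ∘ dst) ∅ ∅) : FlowOn src dst ∅ F := by
  classical
  obtain ⟨W', iF, iD, r', hs, hF, hflow, -⟩ := quot' V E src dst F
  have hconn : ∀ x y, (SimpleGraph.fromRel
      (fun u v : V => ∃ e ∈ F, src e = u ∧ dst e = v)).Reachable x y → r' x = r' y := by
    rintro x y ⟨p⟩
    induction p with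
    | nil => rfl
    | cons hadj _ ih =>
      rw [← ih]
      rw [SimpleGraph.fromRel_adj] at hadj
      rcases hadj.2 with ⟨e, he, h1, h2⟩ | ⟨e, he, h1, h2⟩
      · rw [← h1, ← h2]
        exact hF e he
      · rw [← h1, ← h2]
        exact (hF e he).symm
  have h0 : FlowOn (r' ∘ src) (r' ∘ dst) ∅ ∅ := by
    obtain ⟨f, h1, h2, h3⟩ := h
    refine ⟨f, fun w' => ?_, h2, h3⟩
    have hsum : bd (r' ∘ src) (r' ∘ dst) f w' =
        ∑ w ∈ univ.filter (fun w => ∃ y, r y = w ∧ r' y = w'), bd (r ∘ src) (r ∘ dst) f w := by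
      unfold bd
      rw [sum_comm]
      refine sum_congr rfl fun e _ => ?_
      rw [sum_sub_distrib]
      have hk : ∀ x : V, (if r' x = w' then f e else 0) =
          ∑ w ∈ univ.filter (fun w => ∃ y, r y = w ∧ r' y = w'), if r x = w then f e else 0 := by
        intro x
        rw [sum_ite_eq]
        congr 1
        rw [mem_filter]
        refine propext ⟨fun hx => ⟨mem_univ _, x, rfl, hx⟩, ?_⟩
        rintro ⟨-, y, hy, hy'⟩
        rw [← hy']
        exact (hconn y x (hr y x hy)).symm
      exact congrArg₂ (· - ·) (hk (src e)) (hk (dst e))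
    rw [hsum]
    exact sum_eq_zero fun w _ => h1 w
  have h4 := hflow ∅ h0
  rwa [union_empty] at h4

/-- The quotient of a bridgeless graph is bridgeless. -/
theorem br_quot (src dst : E → V) (r : V → W)
    (hb : ∀ Y : Finset V, (univ.filter (fun e => ¬ (src e ∈ Y ↔ dst e ∈ Y))).card ≠ 1)
    (Y : Finset W) :
    (univ.filter (fun e => ¬ ((r ∘ src) e ∈ Y ↔ (r ∘ dst) e ∈ Y))).card ≠ 1 := by
  have h := hb (univ.filter (fun x => r x ∈ Y))
  simpa using h

/-- Relative form: all results for `G / F` hold for `G`. -/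
theorem relative (src dst : E → V) (m : ℕ) (C : Fin m → Finset E)
    (hC : ∀ i, ∃ z : E → ZMod 5, (∀ v, bd src dst z v = 0) ∧
      (∀ e, z e = 0 ∨ z e = 1 ∨ z e = -1) ∧ ∀ e, z e ≠ 0 ↔ e ∈ C i)
    (hnew : ∀ i, (C i \ (univ.filter (fun j => j < i)).biUnion C).card ≤ 11)
    (r : V → W)
    (hr : ∀ x y, r x = r y → (SimpleGraph.fromRel
      (fun u v : V => ∃ e ∈ univ.biUnion C, src e = u ∧ dst e = v)).Reachable x y)
    (h : FlowOn (r ∘ src) (r ∘ dst) ∅ ∅) : FlowOn src dst ∅ ∅ :=
  lift_all V E src dst m C hC hnew (flow_off src dst _ r hr h)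

end Pool.Agent.Helper335.Rel
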